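import Mathlib

/-!
# The configuration of colours on the 7-cycle is impossible
-/

namespace Pool.Agent.Q157.YG

/-- The colours `c i` of the cycle, the colours `Q i` of the cliques, and the vertices of the
cycle (`TX`) and of the cliques (`TG`) on the path. -/
structure Cfg (K : ℕ) (c : ZMod 7 → ℕ) (Q : ZMod 7 → ℕ → Prop) (TX : ZMod 7 → Prop)
    (TG : ZMod 7 → ℕ → Prop) : Prop where
  cle : ∀ i, c i ≤ K
  adj : ∀ i, c i ≠ c (i + 1)
  q0 : ∀ i, ¬ Q i (c i)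
  q0' : ∀ i, ¬ Q i (c (i + 1))
  q0'' : ∀ i, ¬ Q i (c (i + 3))
  q1 : ∀ i a b d e, a ≤ K → b ≤ K → d ≤ K → e ≤ K → a ≠ b → a ≠ d → a ≠ e → b ≠ d → b ≠ e →
    d ≠ e → Q i a ∨ Q i b ∨ Q i d ∨ Q i e
  uX : ∀ i j, c i = K → c j = K → i = j
  uXG : ∀ i j, c i = K → ¬ Q j K
  uG : ∀ i j, Q i K → Q j K → i = j
  tX : ∀ i, c i = K → TX i
  tG : ∀ i, Q i K → TG i K
  e12 : ∀ i m, TX i → c i = m + 1 → c (i + 1) = m → c (i - 1) = m → False
  e14 : ∀ i m, TX i → c i = m + 1 → c (i + 1) = m → Q (i - 1) m → False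
  e23 : ∀ i m, TX i → c i = m + 1 → c (i - 1) = m → Q i m → False
  e34 : ∀ i m, TX i → c i = m + 1 → Q i m → Q (i - 1) m → False
  e35 : ∀ i m, TX i → c i = m + 1 → Q i m → Q (i - 3) m → False
  e45 : ∀ i m, TX i → c i = m + 1 → Q (i - 1) m → Q (i - 3) m → False
  s1 : ∀ i m, TX i → c i = m + 1 → c (i + 1) = m → TX (i + 1)
  s2 : ∀ i m, TX i → c i = m + 1 → c (i - 1) = m → TX (i - 1)
  s3 : ∀ i m, TX i → c i = m + 1 → Q i m → TG i m
  s4 : ∀ i m, TX i → c i = m + 1 → Q (i - 1) m → TG (i - 1) m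
  s5 : ∀ i m, TX i → c i = m + 1 → Q (i - 3) m → TG (i - 3) m
  t3 : ∀ i m, TG i (m + 1) → Q i m → TG i m
  t4 : ∀ i m, TG i (m + 1) → ¬ Q i m →
    (c i = m ∧ TX i) ∨ (c (i + 1) = m ∧ TX (i + 1)) ∨ (c (i + 3) = m ∧ TX (i + 3))

variable {K : ℕ} {c : ZMod 7 → ℕ} {Q : ZMod 7 → ℕ → Prop} {TX : ZMod 7 → Prop}
  {TG : ZMod 7 → ℕ → Prop}

theorem Cfg.shift (h : Cfg K c Q TX TG) (s : ZMod 7) :
    Cfg K (fun i => c (i + s)) (fun i => Q (i + s)) (fun i => TX (i + s))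
      (fun i => TG (i + s)) := by
  have e1 : ∀ i : ZMod 7, i + 1 + s = i + s + 1 := fun i => add_right_comm _ _ _
  have e3 : ∀ i : ZMod 7, i + 3 + s = i + s + 3 := fun i => add_right_comm _ _ _
  have e2 : ∀ i : ZMod 7, i - 1 + s = i + s - 1 := fun i => sub_add_eq_add_sub _ _ _
  have e4 : ∀ i : ZMod 7, i - 3 + s = i + s - 3 := fun i => sub_add_eq_add_sub _ _ _
  constructor
  · exact fun i => h.cle _
  · exact fun i => by simpa only [e1] using h.adj (i + s)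
  · exact fun i => h.q0 _
  · exact fun i => by simpa only [e1] using h.q0' (i + s)
  · exact fun i => by simpa only [e3] using h.q0'' (i + s)
  · exact fun i => h.q1 _
  · exact fun i j h1 h2 => add_right_cancel (h.uX _ _ h1 h2)
  · exact fun i j h1 => h.uXG _ _ h1
  · exact fun i j h1 h2 => add_right_cancel (h.uG _ _ h1 h2)
  · exact fun i => h.tX _
  · exact fun i => h.tG _
  · exact fun i => by simpa only [e1, e2] using h.e12 (i + s)
  · exact fun i => by simpa only [e1, e2] using h.e14 (i + s)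
  · exact fun i => by simpa only [e1, e2] using h.e23 (i + s)
  · exact fun i => by simpa only [e1, e2] using h.e34 (i + s)
  · exact fun i => by simpa only [e1, e4] using h.e35 (i + s)
  · exact fun i => by simpa only [e2, e4] using h.e45 (i + s)
  · exact fun i => by simpa only [e1, e2] using h.s1 (i + s)
  · exact fun i => by simpa only [e1, e2] using h.s2 (i + s)
  · exact fun i => h.s3 _
  · exact fun i => by simpa only [e1, e2] using h.s4 (i + s)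
  · exact fun i => by simpa only [e1, e4] using h.s5 (i + s)
  · exact fun i => h.t3 _
  · exact fun i => by simpa only [e1, e3] using h.t4 (i + s)

/-- a clique without the colours `a`, `b`, `d` has all the other colours -/
theorem Cfg.has3 (h : Cfg K c Q TX TG) {i : ZMod 7} {a b d m : ℕ} (ha : ¬ Q i a) (hb : ¬ Q i b)
    (hd : ¬ Q i d) (ha' : a ≤ K) (hb' : b ≤ K) (hd' : d ≤ K) (h1 : a ≠ b) (h2 : a ≠ d)
    (h3 : b ≠ d) (hm : m ≤ K) (h4 : m ≠ a) (h5 : m ≠ b) (h6 : m ≠ d) : Q i m := by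
  rcases h.q1 i a b d m ha' hb' hd' hm h1 h2 h4.symm h3 h5.symm h6.symm with h7 | h7 | h7 | h7
  · exact absurd h7 ha
  · exact absurd h7 hb
  · exact absurd h7 hd
  · exact h7

theorem Cfg.two (h : Cfg K c Q TX TG) {i : ZMod 7} (hK : ¬ Q i K) (h0 : c i ≠ K)
    (h1 : c (i + 1) ≠ K) (h3 : c (i + 3) ≠ K) : c (i + 3) = c i ∨ c (i + 3) = c (i + 1) := by
  by_contra hcon
  push Not at hcon
  exact h.q0'' i (h.has3 hK (h.q0 i) (h.q0' i) le_rfl (h.cle _) (h.cle _) h0.symm h1.symm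
    (h.adj i) (h.cle _) h3 hcon.1 hcon.2)

theorem Cfg.has (h : Cfg K c Q TX TG) {i : ZMod 7} (hK : ¬ Q i K) (h0 : c i ≠ K)
    (h1 : c (i + 1) ≠ K) {m : ℕ} (hm : m < K) (h2 : m ≠ c i) (h3 : m ≠ c (i + 1)) : Q i m :=
  h.has3 hK (h.q0 i) (h.q0' i) le_rfl (h.cle _) (h.cle _) h0.symm h1.symm
    (h.adj i) hm.le hm.ne h2 h3

theorem Cfg.t5 (h : Cfg K c Q TX TG) {i : ZMod 7} {m μ : ℕ} (hT : TG i m) (hμ : μ < m)
    (h1 : ¬ Q i μ) (h2 : ∀ ν, μ < ν → ν < m → Q i ν) :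
    (c i = μ ∧ TX i) ∨ (c (i + 1) = μ ∧ TX (i + 1)) ∨ (c (i + 3) = μ ∧ TX (i + 3)) := by
  induction m with
  | zero => omega
  | succ m ih =>
    rcases (Nat.lt_succ_iff.1 hμ).lt_or_eq with h3 | h3
    · exact ih (h.t3 i m hT (h2 m h3 (by omega))) h3 (fun ν h4 h5 => h2 ν h4 (by omega))
    · subst h3
      exact h.t4 i μ hT h1

/-- the three patterns -/
theorem patterns {c1 c2 c3 c4 c5 c6 : ℕ} (h12 : c1 ≠ c2) (h23 : c2 ≠ c3) (h34 : c3 ≠ c4)
    (h45 : c4 ≠ c5) (h56 : c5 ≠ c6) (l1 : c4 = c1 ∨ c4 = c2) (l2 : c5 = c2 ∨ c5 = c3)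
    (l3 : c6 = c3 ∨ c6 = c4) (l5 : c1 = c5 ∨ c1 = c6) :
    (c4 = c1 ∧ c6 = c1 ∧ c5 = c2 ∧ c3 ≠ c1) ∨ (c4 = c1 ∧ c6 = c1 ∧ c5 = c3 ∧ c3 ≠ c1) ∨
      (c3 = c1 ∧ c5 = c1 ∧ c4 = c2 ∧ c6 = c2) := by
  omega

/-- the top colour does not occur -/
theorem Cfg.caseN (h : Cfg K c Q TX TG) (hc : ∀ i, c i ≠ K) (hQ : ∀ i, ¬ Q i K) : False := by
  have l0 : c 3 = c 0 ∨ c 3 = c 1 := h.two (i := 0) (hQ 0) (hc _) (hc _) (hc _)
  have l1 : c 4 = c 1 ∨ c 4 = c 2 := h.two (i := 1) (hQ 1) (hc _) (hc _) (hc _)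
  have l2 : c 5 = c 2 ∨ c 5 = c 3 := h.two (i := 2) (hQ 2) (hc _) (hc _) (hc _)
  have l3 : c 6 = c 3 ∨ c 6 = c 4 := h.two (i := 3) (hQ 3) (hc _) (hc _) (hc _)
  have l4 : c 0 = c 4 ∨ c 0 = c 5 := h.two (i := 4) (hQ 4) (hc _) (hc _) (hc _)
  have l5 : c 1 = c 5 ∨ c 1 = c 6 := h.two (i := 5) (hQ 5) (hc _) (hc _) (hc _)
  have l6 : c 2 = c 6 ∨ c 2 = c 0 := h.two (i := 6) (hQ 6) (hc _) (hc _) (hc _)
  have a0 : c 0 ≠ c 1 := h.adj 0
  have a1 : c 1 ≠ c 2 := h.adj 1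
  have a2 : c 2 ≠ c 3 := h.adj 2
  have a3 : c 3 ≠ c 4 := h.adj 3
  have a4 : c 4 ≠ c 5 := h.adj 4
  have a5 : c 5 ≠ c 6 := h.adj 5
  have a6 : c 6 ≠ c 0 := h.adj 6
  rcases patterns a1 a2 a3 a4 a5 l1 l2 l3 l5 with ⟨p1, p2, p3, p4⟩ | ⟨p1, p2, p3, p4⟩ |
    ⟨p1, p2, p3, p4⟩ <;> omega

/-- the top colour occurs in the clique `4` -/
theorem Cfg.caseA (h : Cfg K c Q TX TG) (hc : ∀ i, c i ≠ K) (hT : Q 4 K)
    (hQ : ∀ i, i ≠ 4 → ¬ Q i K) : False := by
  have q0 := hQ 0 (by decide)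
  have q1 := hQ 1 (by decide)
  have q2 := hQ 2 (by decide)
  have q3 := hQ 3 (by decide)
  have q5 := hQ 5 (by decide)
  have q6 := hQ 6 (by decide)
  have l0 : c 3 = c 0 ∨ c 3 = c 1 := h.two (i := 0) q0 (hc _) (hc _) (hc _)
  have l1 : c 4 = c 1 ∨ c 4 = c 2 := h.two (i := 1) q1 (hc _) (hc _) (hc _)
  have l2 : c 5 = c 2 ∨ c 5 = c 3 := h.two (i := 2) q2 (hc _) (hc _) (hc _)
  have l3 : c 6 = c 3 ∨ c 6 = c 4 := h.two (i := 3) q3 (hc _) (hc _) (hc _)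
  have l5 : c 1 = c 5 ∨ c 1 = c 6 := h.two (i := 5) q5 (hc _) (hc _) (hc _)
  have l6 : c 2 = c 6 ∨ c 2 = c 0 := h.two (i := 6) q6 (hc _) (hc _) (hc _)
  have a0 : c 0 ≠ c 1 := h.adj 0
  have a1 : c 1 ≠ c 2 := h.adj 1
  have a2 : c 2 ≠ c 3 := h.adj 2
  have a3 : c 3 ≠ c 4 := h.adj 3
  have a4 : c 4 ≠ c 5 := h.adj 4
  have a5 : c 5 ≠ c 6 := h.adj 5
  have a6 : c 6 ≠ c 0 := h.adj 6
  obtain ⟨p1, p2, p3, p4⟩ : c 3 = c 1 ∧ c 5 = c 1 ∧ c 4 = c 2 ∧ c 6 = c 2 := by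
    rcases patterns a1 a2 a3 a4 a5 l1 l2 l3 l5 with ⟨p1, p2, p3, p4⟩ | ⟨p1, p2, p3, p4⟩ |
      ⟨p1, p2, p3, p4⟩
    · omega
    · omega
    · exact ⟨p1, p2, p3, p4⟩
  have k0 := h.cle 0
  have k1 := h.cle 1
  have k2 := h.cle 2
  have c0 := hc 0
  have c1 := hc 1
  have c2 := hc 2
  -- the colours of the cliques
  have H0 : ∀ m, m < K → m ≠ c 0 → m ≠ c 1 → Q 0 m := fun m h1 h2 h3 =>
    h.has q0 (hc _) (hc _) h1 h2 h3
  have H1 : ∀ m, m < K → m ≠ c 1 → m ≠ c 2 → Q 1 m := fun m h1 h2 h3 =>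
    h.has q1 (hc _) (hc _) h1 h2 h3
  have H2 : ∀ m, m < K → m ≠ c 2 → m ≠ c 3 → Q 2 m := fun m h1 h2 h3 =>
    h.has q2 (hc _) (hc _) h1 h2 h3
  have H3 : ∀ m, m < K → m ≠ c 3 → m ≠ c 4 → Q 3 m := fun m h1 h2 h3 =>
    h.has q3 (hc _) (hc _) h1 h2 h3
  have H5 : ∀ m, m < K → m ≠ c 5 → m ≠ c 6 → Q 5 m := fun m h1 h2 h3 =>
    h.has q5 (hc _) (hc _) h1 h2 h3
  have H6 : ∀ m, m < K → m ≠ c 6 → m ≠ c 0 → Q 6 m := fun m h1 h2 h3 =>
    h.has q6 (hc _) (hc _) h1 h2 h3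
  have n4 : ¬ Q 4 (c 4) := h.q0 4
  have n5 : ¬ Q 4 (c 5) := h.q0' 4
  have n0 : ¬ Q 4 (c 0) := h.q0'' 4
  have H4 : ∀ m, m ≤ K → m ≠ c 4 → m ≠ c 5 → m ≠ c 0 → Q 4 m := fun m h1 h2 h3 h4 =>
    h.has3 n4 n5 n0 (h.cle _) (h.cle _) (h.cle _) (by omega) (by omega) (by omega) h1 h2 h3 h4
  have hTG := h.tG 4 hT
  -- the largest missing colour of the clique 4
  have X0 : ∀ m, c 0 = m + 1 → TX 0 → False := by
    intro m hm hx
    by_cases e1 : m = c 1
    · exact h.e14 0 m hx hm e1.symm (H6 m (by omega) (by omega) (by omega))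
    · by_cases e2 : m = c 2
      · exact h.e23 0 m hx hm (show c 6 = m by omega) (H0 m (by omega) (by omega) (by omega))
      · exact h.e34 0 m hx hm (H0 m (by omega) (by omega) (by omega))
          (H6 m (by omega) (by omega) (by omega))
  have X5 : ∀ m, c 5 = m + 1 → TX 5 → False := by
    intro m hm hx
    by_cases e2 : m = c 2
    · exact h.e12 5 m hx hm (show c 6 = m by omega) (show c 4 = m by omega)
    · exact h.e35 5 m hx hm (H5 m (by omega) (by omega) (by omega))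
        (H2 m (by omega) (by omega) (by omega))
  have X4 : ∀ m, c 4 = m + 1 → TX 4 → False := by
    intro m hm hx
    by_cases e2 : m = c 1
    · exact h.e12 4 m hx hm (show c 5 = m by omega) (show c 3 = m by omega)
    · exact h.e45 4 m hx hm (H3 m (by omega) (by omega) (by omega))
        (H1 m (by omega) (by omega) (by omega))
  have key : ∀ μ, (μ = c 4 ∨ μ = c 5 ∨ μ = c 0) → c 4 ≤ μ → c 5 ≤ μ → c 0 ≤ μ → False := by
    intro μ h1 h2 h3 h4
    have h5 : 1 ≤ μ := by omega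
    obtain ⟨m, rfl⟩ : ∃ m, μ = m + 1 := ⟨μ - 1, by omega⟩
    have h6 : ¬ Q 4 (m + 1) := by
      rcases h1 with h1 | h1 | h1
      · rw [h1]; exact n4
      · rw [h1]; exact n5
      · rw [h1]; exact n0
    rcases h.t5 hTG (by omega) h6 (fun ν h7 h8 => H4 ν (by omega) (by omega) (by omega)
      (by omega)) with ⟨h7, h8⟩ | ⟨h7, h8⟩ | ⟨h7, h8⟩
    · exact X4 m h7 h8
    · exact X5 m h7 h8
    · exact X0 m h7 h8
  by_cases m1 : c 4 ≤ c 5
  · by_cases m2 : c 5 ≤ c 0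
    · exact key (c 0) (by simp) (by omega) (by omega) le_rfl
    · exact key (c 5) (by simp) (by omega) le_rfl (by omega)
  · by_cases m2 : c 4 ≤ c 0
    · exact key (c 0) (by simp) (by omega) (by omega) le_rfl
    · exact key (c 4) (by simp) le_rfl (by omega) (by omega)

/-- the vertex `0` of the cycle has the top colour -/
theorem Cfg.caseB (hK : 3 ≤ K) (h : Cfg K c Q TX TG) (hT : c 0 = K) : False := by
  have hQ : ∀ i, ¬ Q i K := fun i => h.uXG 0 i hT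
  have c1 : c 1 ≠ K := fun e => absurd (h.uX 0 1 hT e) (by decide)
  have c2 : c 2 ≠ K := fun e => absurd (h.uX 0 2 hT e) (by decide)
  have c3 : c 3 ≠ K := fun e => absurd (h.uX 0 3 hT e) (by decide)
  have c4 : c 4 ≠ K := fun e => absurd (h.uX 0 4 hT e) (by decide)
  have c5 : c 5 ≠ K := fun e => absurd (h.uX 0 5 hT e) (by decide)
  have c6 : c 6 ≠ K := fun e => absurd (h.uX 0 6 hT e) (by decide)
  have l1 : c 4 = c 1 ∨ c 4 = c 2 := h.two (i := 1) (hQ 1) c1 c2 c4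
  have l2 : c 5 = c 2 ∨ c 5 = c 3 := h.two (i := 2) (hQ 2) c2 c3 c5
  have l3 : c 6 = c 3 ∨ c 6 = c 4 := h.two (i := 3) (hQ 3) c3 c4 c6
  have l5 : c 1 = c 5 ∨ c 1 = c 6 := h.two (i := 5) (hQ 5) c5 c6 c1
  have a1 : c 1 ≠ c 2 := h.adj 1
  have a2 : c 2 ≠ c 3 := h.adj 2
  have a3 : c 3 ≠ c 4 := h.adj 3
  have a4 : c 4 ≠ c 5 := h.adj 4
  have a5 : c 5 ≠ c 6 := h.adj 5
  have k1 := h.cle 1
  have k2 := h.cle 2
  have k3 := h.cle 3
  have k4 := h.cle 4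
  have k5 := h.cle 5
  have k6 := h.cle 6
  have H1 : ∀ m, m < K → m ≠ c 1 → m ≠ c 2 → Q 1 m := fun m h1 h2 h3 =>
    h.has (hQ 1) c1 c2 h1 h2 h3
  have H2 : ∀ m, m < K → m ≠ c 2 → m ≠ c 3 → Q 2 m := fun m h1 h2 h3 =>
    h.has (hQ 2) c2 c3 h1 h2 h3
  have H3 : ∀ m, m < K → m ≠ c 3 → m ≠ c 4 → Q 3 m := fun m h1 h2 h3 =>
    h.has (hQ 3) c3 c4 h1 h2 h3
  have H4 : ∀ m, m < K → m ≠ c 4 → m ≠ c 5 → Q 4 m := fun m h1 h2 h3 =>
    h.has (hQ 4) c4 c5 h1 h2 h3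
  have H5 : ∀ m, m < K → m ≠ c 5 → m ≠ c 6 → Q 5 m := fun m h1 h2 h3 =>
    h.has (hQ 5) c5 c6 h1 h2 h3
  have n01 : ¬ Q 0 (c 1) := h.q0' 0
  have n03 : ¬ Q 0 (c 3) := h.q0'' 0
  have n66 : ¬ Q 6 (c 6) := h.q0 6
  have n62 : ¬ Q 6 (c 2) := h.q0'' 6
  have n44 : ¬ Q 4 (c 4) := h.q0 4
  have n45 : ¬ Q 4 (c 5) := h.q0' 4
  have hT0 : TX 0 := h.tX 0 hT
  obtain ⟨L, rfl⟩ : ∃ L, K = L + 1 := ⟨K - 1, by omega⟩
  rcases patterns a1 a2 a3 a4 a5 l1 l2 l3 l5 with ⟨p1, p2, p3, p4⟩ | ⟨p1, p2, p3, p4⟩ |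
    ⟨p1, p2, p3, p4⟩
  · -- first pattern
    have H0 : ∀ m, m < L + 1 → m ≠ c 1 → m ≠ c 3 → Q 0 m := fun m h1 h2 h3 =>
      h.has3 (hQ 0) n01 n03 le_rfl k1 k3 c1.symm c3.symm p4.symm h1.le h1.ne h2 h3
    have H6 : ∀ m, m < L + 1 → m ≠ c 6 → m ≠ c 2 → Q 6 m := fun m h1 h2 h3 =>
      h.has3 (hQ 6) n66 n62 le_rfl k6 k2 c6.symm c2.symm (by omega) h1.le h1.ne h2 h3
    have e1 : c 1 ≠ L := fun e => h.e12 0 L hT0 hT e (show c 6 = L by omega)
    have e2 : c 2 = L := by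
      by_contra e
      exact h.e45 0 L hT0 hT (H6 L (by omega) (by omega) (by omega))
        (H4 L (by omega) (by omega) (by omega))
    have hTG : TG 0 L := h.s3 0 L hT0 hT (H0 L (by omega) (by omega) (by omega))
    rcases lt_or_gt_of_ne p4 with m1 | m1
    · -- c 3 < c 1
      rcases h.t5 hTG (μ := c 1) (by omega) n01 (fun ν h7 h8 => H0 ν (by omega) (by omega)
        (by omega)) with ⟨h7, h8⟩ | ⟨h7, h8⟩ | ⟨h7, h8⟩
      · omega
      · obtain ⟨m, hm⟩ : ∃ m, c 1 = m + 1 := ⟨c 1 - 1, by omega⟩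
        exact h.e35 1 m h8 hm (H1 m (by omega) (by omega) (by omega))
          (H5 m (by omega) (by omega) (by omega))
      · exact absurd (show c 3 = c 1 from h7) p4
    · rcases h.t5 hTG (μ := c 3) (by omega) n03 (fun ν h7 h8 => H0 ν (by omega) (by omega)
        (by omega)) with ⟨h7, h8⟩ | ⟨h7, h8⟩ | ⟨h7, h8⟩
      · omega
      · exact absurd (show c 1 = c 3 from h7).symm p4
      · obtain ⟨m, hm⟩ : ∃ m, c 3 = m + 1 := ⟨c 3 - 1, by omega⟩
        by_cases e3 : c 1 = m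
        · exact h.e14 3 m h8 hm (show c 4 = m by omega) (H2 m (by omega) (by omega) (by omega))
        · exact h.e34 3 m h8 hm (H3 m (by omega) (by omega) (by omega))
            (H2 m (by omega) (by omega) (by omega))
  · -- second pattern
    have H0 : ∀ m, m < L + 1 → m ≠ c 1 → m ≠ c 3 → Q 0 m := fun m h1 h2 h3 =>
      h.has3 (hQ 0) n01 n03 le_rfl k1 k3 c1.symm c3.symm p4.symm h1.le h1.ne h2 h3
    have H6 : ∀ m, m < L + 1 → m ≠ c 6 → m ≠ c 2 → Q 6 m := fun m h1 h2 h3 =>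
      h.has3 (hQ 6) n66 n62 le_rfl k6 k2 c6.symm c2.symm (by omega) h1.le h1.ne h2 h3
    have e1 : c 1 ≠ L := fun e => h.e12 0 L hT0 hT e (show c 6 = L by omega)
    have e2 : c 3 = L := by
      by_contra e
      exact h.e35 0 L hT0 hT (H0 L (by omega) (by omega) (by omega))
        (H4 L (by omega) (by omega) (by omega))
    have hTG : TG 6 L := h.s4 0 L hT0 hT (H6 L (by omega) (by omega) (by omega))
    rcases lt_or_gt_of_ne a1 with m1 | m1
    · -- c 1 < c 2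
      rcases h.t5 hTG (μ := c 2) (by omega) n62 (fun ν h7 h8 => H6 ν (by omega) (by omega)
        (by omega)) with ⟨h7, h8⟩ | ⟨h7, h8⟩ | ⟨h7, h8⟩
      · omega
      · have h7' : c 0 = c 2 := h7
        omega
      · obtain ⟨m, hm⟩ : ∃ m, c 2 = m + 1 := ⟨c 2 - 1, by omega⟩
        by_cases e3 : c 1 = m
        · exact h.e23 2 m h8 hm (show c 1 = m from e3) (H2 m (by omega) (by omega) (by omega))
        · exact h.e34 2 m h8 hm (H2 m (by omega) (by omega) (by omega))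
            (H1 m (by omega) (by omega) (by omega))
    · rcases h.t5 hTG (μ := c 6) (by omega) n66 (fun ν h7 h8 => H6 ν (by omega) (by omega)
        (by omega)) with ⟨h7, h8⟩ | ⟨h7, h8⟩ | ⟨h7, h8⟩
      · obtain ⟨m, hm⟩ : ∃ m, c 6 = m + 1 := ⟨c 6 - 1, by omega⟩
        exact h.e45 6 m h8 hm (H5 m (by omega) (by omega) (by omega))
          (H3 m (by omega) (by omega) (by omega))
      · have h7' : c 0 = c 6 := h7
        omega
      · have h7' : c 2 = c 6 := h7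
        omega
  · -- third pattern
    obtain ⟨M, rfl⟩ : ∃ M, L = M + 1 := ⟨L - 1, by omega⟩
    obtain ⟨N, rfl⟩ : ∃ N, M = N + 1 := ⟨M - 1, by omega⟩
    by_cases e1 : c 1 = N + 1 + 1
    · have hx1 : TX 1 := h.s1 0 _ hT0 hT e1
      have e2 : c 2 = N + 1 := by
        by_contra e
        exact h.e35 1 (N + 1) hx1 e1 (H1 _ (by omega) (by omega) (by omega))
          (H5 _ (by omega) (by omega) (by omega))
      have hx2 : TX 2 := h.s1 1 _ hx1 e1 e2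
      exact h.e34 2 N hx2 e2 (H2 _ (by omega) (by omega) (by omega))
        (H1 _ (by omega) (by omega) (by omega))
    · by_cases e2 : c 2 = N + 1 + 1
      · have e6 : c 6 = N + 1 + 1 := by omega
        have hx6 : TX 6 := h.s2 0 _ hT0 hT e6
        have e3 : c 1 = N + 1 := by
          by_contra e
          exact h.e45 6 (N + 1) hx6 e6 (H5 _ (by omega) (by omega) (by omega))
            (H3 _ (by omega) (by omega) (by omega))
        have e5 : c 5 = N + 1 := by omega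
        have hx5 : TX 5 := h.s2 6 _ hx6 e6 e5
        exact h.e34 5 N hx5 e5 (H5 _ (by omega) (by omega) (by omega))
          (H4 _ (by omega) (by omega) (by omega))
      · have hTG : TG 4 (N + 1 + 1) := h.s5 0 _ hT0 hT (H4 _ (by omega) (by omega) (by omega))
        rcases lt_or_gt_of_ne a4 with m1 | m1
        · -- c 4 < c 5
          rcases h.t5 hTG (μ := c 5) (by omega) n45 (fun ν h7 h8 => H4 ν (by omega) (by omega)
            (by omega)) with ⟨h7, h8⟩ | ⟨h7, h8⟩ | ⟨h7, h8⟩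
          · omega
          · obtain ⟨m, hm⟩ : ∃ m, c 5 = m + 1 := ⟨c 5 - 1, by omega⟩
            by_cases e3 : c 2 = m
            · exact h.e12 5 m h8 hm (show c 6 = m by omega) (show c 4 = m by omega)
            · exact h.e35 5 m h8 hm (H5 m (by omega) (by omega) (by omega))
                (H2 m (by omega) (by omega) (by omega))
          · have h7' : c 0 = c 5 := h7
            omega
        · rcases h.t5 hTG (μ := c 4) (by omega) n44 (fun ν h7 h8 => H4 ν (by omega) (by omega)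
            (by omega)) with ⟨h7, h8⟩ | ⟨h7, h8⟩ | ⟨h7, h8⟩
          · obtain ⟨m, hm⟩ : ∃ m, c 4 = m + 1 := ⟨c 4 - 1, by omega⟩
            by_cases e3 : c 1 = m
            · exact h.e12 4 m h8 hm (show c 5 = m by omega) (show c 3 = m by omega)
            · exact h.e45 4 m h8 hm (H3 m (by omega) (by omega) (by omega))
                (H1 m (by omega) (by omega) (by omega))
          · have h7' : c 5 = c 4 := h7
            omega
          · have h7' : c 0 = c 4 := h7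
            omega

theorem Cfg.false (hK : 3 ≤ K) (h : Cfg K c Q TX TG) : False := by
  by_cases hc : ∃ i, c i = K
  · obtain ⟨i, hi⟩ := hc
    refine Cfg.caseB hK (h.shift i) ?_
    change c (0 + i) = K
    rw [zero_add]
    exact hi
  · push Not at hc
    by_cases hQ : ∃ i, Q i K
    · obtain ⟨i, hi⟩ := hQ
      refine Cfg.caseA (h.shift (i - 4)) (fun j => hc _) ?_ ?_
      · change Q (4 + (i - 4)) K
        rw [add_sub_cancel]
        exact hi
      · intro j hj h1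
        change Q (j + (i - 4)) K at h1
        apply hj
        have h2 := h.uG _ _ h1 hi
        have h3 : j = i - (i - 4) := eq_sub_of_add_eq h2
        rw [h3, sub_sub_cancel]
    · push Not at hQ
      exact h.caseN hc hQ

end Pool.Agent.Q157.YG
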