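import Mathlib

/-!
# Orientations with few long paths and colourings
-/

namespace Pool.Agent.Q157.YG

open Relation

/-- `O` is an orientation of the graph `G`: it replaces every edge by exactly one of the two
arcs. -/
def IsOrientation {V : Type} (G : SimpleGraph V) (O : V → V → Prop) : Prop :=
  (∀ u v, O u v → G.Adj u v) ∧ ∀ u v, G.Adj u v → (O u v ∧ ¬ O v u) ∨ (O v u ∧ ¬ O u v)

/-- `p` is a directed path on `k` vertices. -/
def IsDiPath {V : Type} (O : V → V → Prop) (k : ℕ) (p : Fin k → V) : Prop :=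
  Function.Injective p ∧ ∀ i j : Fin k, (j : ℕ) = i + 1 → O (p i) (p j)

section roy

variable {V : Type}

theorem trans_insert {R : V → V → Prop} {u v : V} {a b : V}
    (h : TransGen (fun x y => R x y ∨ (x = u ∧ y = v)) a b) :
    TransGen R a b ∨ (ReflTransGen R a u ∧ ReflTransGen R v b) := by
  induction h with
  | single h =>
    rcases h with h | ⟨rfl, rfl⟩
    · exact Or.inl (TransGen.single h)
    · exact Or.inr ⟨ReflTransGen.refl, ReflTransGen.refl⟩
  | tail _ h ih =>
    rcases h with h | ⟨rfl, rfl⟩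
    · rcases ih with ih | ih
      · exact Or.inl (ih.tail h)
      · exact Or.inr ⟨ih.1, ih.2.tail h⟩
    · rcases ih with ih | ih
      · exact Or.inr ⟨ih.to_reflTransGen, ReflTransGen.refl⟩
      · exact Or.inr ⟨ih.1, ReflTransGen.refl⟩

/-- a maximal acyclic part of an orientation -/
theorem exists_acyclic [Fintype V] {G : SimpleGraph V} {O : V → V → Prop} (hO : IsOrientation G O) :
    ∃ D : V → V → Prop, (∀ u v, D u v → O u v) ∧ (∀ v, ¬ TransGen D v v) ∧
      ∀ u v, O u v → ¬ D u v → TransGen D v u := by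
  classical
  let P : Finset (V × V) → Prop := fun D => (∀ e ∈ D, O e.1 e.2) ∧
    ∀ v, ¬ TransGen (fun x y => (x, y) ∈ D) v v
  have hne : (Finset.univ.filter P).Nonempty := by
    refine ⟨∅, ?_⟩
    rw [Finset.mem_filter]
    refine ⟨Finset.mem_univ _, fun e he => by simp at he, fun v hv => ?_⟩
    rcases TransGen.tail'_iff.1 hv with ⟨w, -, hw⟩
    simp at hw
  obtain ⟨D, hD, hmax⟩ := Finset.exists_max_image _ Finset.card hne
  rw [Finset.mem_filter] at hD
  obtain ⟨-, hD1, hD2⟩ := hD
  refine ⟨fun x y => (x, y) ∈ D, fun u v h => hD1 _ h, hD2, ?_⟩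
  intro u v huv hn
  have h1 : ¬ P (insert (u, v) D) := by
    intro hP
    have h2 := hmax (insert (u, v) D) (by rw [Finset.mem_filter]; exact ⟨Finset.mem_univ _, hP⟩)
    rw [Finset.card_insert_of_notMem hn] at h2
    omega
  have h2 : ∃ w, TransGen (fun x y => (x, y) ∈ insert (u, v) D) w w := by
    by_contra hcon
    push Not at hcon
    refine h1 ⟨?_, hcon⟩
    intro e he
    rcases Finset.mem_insert.1 he with rfl | he
    · exact huv
    · exact hD1 e he
  obtain ⟨w, hw⟩ := h2
  have conv : ∀ x y, (x, y) ∈ insert (u, v) D → ((x, y) ∈ D ∨ (x = u ∧ y = v)) := by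
    intro x y hxy
    rcases Finset.mem_insert.1 hxy with h | h
    · right
      exact ⟨congrArg Prod.fst h, congrArg Prod.snd h⟩
    · exact Or.inl h
  have h3 : TransGen (fun x y => (x, y) ∈ D ∨ (x = u ∧ y = v)) w w := by
    have key : ∀ a b, TransGen (fun x y => (x, y) ∈ insert (u, v) D) a b →
        TransGen (fun x y => (x, y) ∈ D ∨ (x = u ∧ y = v)) a b := by
      intro a b h
      induction h with
      | single h => exact TransGen.single (conv _ _ h)
      | tail _ h ih => exact ih.tail (conv _ _ h)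
    exact key w w hw
  rcases trans_insert h3 with h4 | ⟨h4, h5⟩
  · exact absurd h4 (hD2 w)
  · rcases reflTransGen_iff_eq_or_transGen.1 (h5.trans h4) with h6 | h6
    · exact absurd h6 (fun h => (hO.1 u v huv).ne h)
    · exact h6

/-- there is a walk with `m + 1` vertices which ends at `v` -/
def Wk (D : V → V → Prop) (m : ℕ) (v : V) : Prop :=
  ∃ q : ℕ → V, q m = v ∧ ∀ i < m, D (q i) (q (i + 1))

theorem wk_zero (D : V → V → Prop) (v : V) : Wk D 0 v := ⟨fun _ => v, rfl, by simp⟩

theorem wk_mono {D : V → V → Prop} {m m' : ℕ} {v : V} (h : Wk D m v) (hm : m' ≤ m) :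
    Wk D m' v := by
  obtain ⟨q, h1, h2⟩ := h
  refine ⟨fun i => q (i + (m - m')), ?_, ?_⟩
  · have e : m' + (m - m') = m := by omega
    dsimp only
    rw [e, h1]
  · intro i hi
    have := h2 (i + (m - m')) (by omega)
    have e : i + (m - m') + 1 = i + 1 + (m - m') := by omega
    rw [e] at this
    exact this

theorem wk_succ {D : V → V → Prop} {m : ℕ} {u v : V} (h : Wk D m u) (huv : D u v) :
    Wk D (m + 1) v := by
  obtain ⟨q, h1, h2⟩ := h
  refine ⟨fun i => if i ≤ m then q i else v, by simp, ?_⟩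
  intro i hi
  dsimp only
  by_cases h3 : i + 1 ≤ m
  · rw [if_pos (by omega), if_pos h3]
    exact h2 i (by omega)
  · have h4 : i = m := by omega
    subst h4
    rw [if_pos le_rfl, if_neg (by omega), h1]
    exact huv

theorem wk_pred {D : V → V → Prop} {m : ℕ} {v : V} (h : Wk D (m + 1) v) :
    ∃ u, D u v ∧ Wk D m u := by
  obtain ⟨q, h1, h2⟩ := h
  refine ⟨q m, ?_, q, rfl, fun i hi => h2 i (by omega)⟩
  rw [← h1]
  exact h2 m (by omega)

theorem walk_trans {D : V → V → Prop} {m : ℕ} {q : ℕ → V} (h : ∀ i < m, D (q i) (q (i + 1)))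
    {i j : ℕ} (hij : i < j) (hj : j ≤ m) : TransGen D (q i) (q j) := by
  induction j with
  | zero => omega
  | succ j ih =>
    have h1 := h j (by omega)
    rcases (Nat.lt_succ_iff.1 hij).lt_or_eq with h2 | h2
    · exact (ih h2 (by omega)).tail h1
    · subst h2
      exact TransGen.single h1

/-- The colouring by the lengths of longest paths. -/
theorem roy [Fintype V] {G : SimpleGraph V} {O : V → V → Prop} (hO : IsOrientation G O) (K : ℕ)
    (huniq : ∀ p q : Fin (K + 1) → V, IsDiPath O (K + 1) p → IsDiPath O (K + 1) q → p = q) :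
    ∃ f : V → ℕ, (∀ v, f v ≤ K) ∧ (∀ u v, G.Adj u v → f u ≠ f v) ∧
      (∀ v m, f v = m + 1 → ∃ u, G.Adj u v ∧ f u = m) ∧
      ∀ p q : Fin (K + 1) → V, (∀ i, f (p i) = i) →
        (∀ i j : Fin (K + 1), (j : ℕ) = i + 1 → G.Adj (p i) (p j)) → (∀ i, f (q i) = i) →
        (∀ i j : Fin (K + 1), (j : ℕ) = i + 1 → G.Adj (q i) (q j)) → p = q := by
  classical
  obtain ⟨D, hD1, hD2, hD3⟩ := exists_acyclic hO
  have hinj : ∀ (m : ℕ) (q : ℕ → V), (∀ i < m, D (q i) (q (i + 1))) → ∀ i j, i ≤ m → j ≤ m →
      q i = q j → i = j := by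
    intro m q hq i j hi hj hij
    rcases lt_trichotomy i j with h | h | h
    · have := walk_trans hq h hj
      rw [hij] at this
      exact absurd this (hD2 _)
    · exact h
    · have := walk_trans hq h hi
      rw [hij] at this
      exact absurd this (hD2 _)
  have hlong : ∀ v, ¬ Wk D (K + 1) v := by
    rintro v ⟨q, -, hq⟩
    have h1 : IsDiPath O (K + 1) (fun i => q i) := by
      refine ⟨fun i j hij => ?_, fun i j hij => ?_⟩
      · exact Fin.ext (hinj (K + 1) q hq i j (by omega) (by omega) hij)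
      · dsimp only
        rw [hij]
        exact hD1 _ _ (hq i (by omega))
    have h2 : IsDiPath O (K + 1) (fun i => q (i + 1)) := by
      refine ⟨fun i j hij => ?_, fun i j hij => ?_⟩
      · have := hinj (K + 1) q hq (i + 1) (j + 1) (by omega) (by omega) hij
        exact Fin.ext (by omega)
      · have h3 := hq (i + 1) (by omega)
        dsimp only
        rw [hij]
        exact hD1 _ _ h3
    have h3 := congrFun (huniq _ _ h1 h2) 0
    have h4 := hinj (K + 1) q hq 0 1 (by omega) (by omega) (by simpa using h3)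
    omega
  have hex : ∀ v, ∃ m, ¬ Wk D (m + 1) v := fun v => ⟨K, hlong v⟩
  let f : V → ℕ := fun v => Nat.find (hex v)
  have f1 : ∀ v, ¬ Wk D (f v + 1) v := fun v => Nat.find_spec (hex v)
  have f2 : ∀ v, Wk D (f v) v := by
    intro v
    by_cases h : f v = 0
    · rw [h]
      exact wk_zero D v
    · have h1 := Nat.find_min (hex v) (m := f v - 1) (by change f v - 1 < f v; omega)
      rw [not_not] at h1
      have h2 : f v - 1 + 1 = f v := by omega
      rw [h2] at h1
      exact h1
  have f3 : ∀ v, f v ≤ K := fun v => Nat.find_min' (hex v) (hlong v)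
  have f4 : ∀ v m, Wk D m v → m ≤ f v := by
    intro v m h
    by_contra hcon
    exact f1 v (wk_mono h (by omega))
  have f5 : ∀ u v, D u v → f u < f v := fun u v h => f4 v _ (wk_succ (f2 u) h)
  have f6 : ∀ u v, TransGen D u v → f u < f v := by
    intro u v h
    induction h with
    | single h => exact f5 _ _ h
    | tail _ h ih => exact ih.trans (f5 _ _ h)
  have f7 : ∀ u v, TransGen D u v → ¬ D u v → f u + 2 ≤ f v := by
    intro u v h hn
    cases h with
    | single h => exact absurd h hn
    | tail h1 h2 =>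
      have := f6 _ _ h1
      have := f5 _ _ h2
      omega
  have f8 : ∀ u v, G.Adj u v → f v = f u + 1 → D u v := by
    intro u v huv h
    by_contra hn
    rcases hO.2 u v huv with h1 | h1
    · have := f6 _ _ (hD3 u v h1.1 hn)
      omega
    · by_cases h2 : D v u
      · have := f5 _ _ h2
        omega
      · have := f7 _ _ (hD3 v u h1.1 h2) hn
        omega
  refine ⟨f, f3, ?_, ?_, ?_⟩
  · intro u v huv
    rcases hO.2 u v huv with h1 | h1
    · by_cases h2 : D u v
      · exact (f5 _ _ h2).ne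
      · exact (f6 _ _ (hD3 u v h1.1 h2)).ne'
    · by_cases h2 : D v u
      · exact (f5 _ _ h2).ne'
      · exact (f6 _ _ (hD3 v u h1.1 h2)).ne
  · intro v m hm
    have h1 := f2 v
    rw [hm] at h1
    obtain ⟨u, hu, hw⟩ := wk_pred h1
    have h2 := f4 u m hw
    have h3 := f5 u v hu
    exact ⟨u, hO.1 u v (hD1 u v hu), by omega⟩
  · have key : ∀ p : Fin (K + 1) → V, (∀ i, f (p i) = i) →
        (∀ i j : Fin (K + 1), (j : ℕ) = i + 1 → G.Adj (p i) (p j)) → IsDiPath O (K + 1) p := by
      intro p hp hA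
      refine ⟨fun i j hij => ?_, fun i j hij => ?_⟩
      · have h1 := hp i
        have h2 := hp j
        rw [hij] at h1
        exact Fin.ext (by omega)
      · refine hD1 _ _ (f8 _ _ (hA i j hij) ?_)
        rw [hp, hp, hij]
    intro p q h1 h2 h3 h4
    exact huniq p q (key p h1 h2) (key q h3 h4)

end roy

end Pool.Agent.Q157.YG
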