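import Pool.Agent.Q157.YG.Cfg
import Pool.Agent.Q157.YG.Roy

/-!
# The graphs `G_k` have no minimal orientation
-/

namespace Pool.Agent.Q157.YG

/-- The vertices of `G_k`: `Sum.inl i` is the vertex `x_i` of the 7-cycle, and the vertices
`Sum.inr (i, a)` with `a < k - 3` form the clique `G_i`. -/
abbrev Vtx (k : ℕ) : Type := ZMod 7 ⊕ (ZMod 7 × Fin (k - 3))

/-- adjacency in `G_k` -/
def adj7 (k : ℕ) : Vtx k → Vtx k → Prop
  | Sum.inl i, Sum.inl j => j = i + 1 ∨ i = j + 1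
  | Sum.inl j, Sum.inr (i, _) => j = i ∨ j = i + 1 ∨ j = i + 3
  | Sum.inr (i, _), Sum.inl j => j = i ∨ j = i + 1 ∨ j = i + 3
  | Sum.inr (i, a), Sum.inr (j, b) => i = j ∧ a ≠ b

/-- The graph `G_k`: a 7-cycle `x_0, …, x_6` and seven complete graphs `G_0, …, G_6` on `k - 3`
vertices; all the vertices of `G_i` are joined to `x_i`, `x_{i+1}` and `x_{i+3}`. -/
def graph7 (k : ℕ) : SimpleGraph (Vtx k) where
  Adj := adj7 k
  symm := ⟨by
    rintro (i | ⟨i, a⟩) (j | ⟨j, b⟩) h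
    · exact Or.symm h
    · exact h
    · exact h
    · exact ⟨h.1.symm, h.2.symm⟩⟩
  loopless := ⟨by
    rintro (i | ⟨i, a⟩) h
    · rcases h with h | h
      · exact absurd (left_eq_add.1 h) (by decide)
      · exact absurd (left_eq_add.1 h) (by decide)
    · exact h.2 rfl⟩

variable {k K : ℕ}

theorem adj_ll {i j : ZMod 7} : (graph7 k).Adj (Sum.inl i) (Sum.inl j) ↔
    (j = i + 1 ∨ i = j + 1) := Iff.rfl

theorem adj_lr {i j : ZMod 7} {a : Fin (k - 3)} :
    (graph7 k).Adj (Sum.inl j) (Sum.inr (i, a)) ↔ (j = i ∨ j = i + 1 ∨ j = i + 3) := Iff.rfl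

theorem adj_rl {i j : ZMod 7} {a : Fin (k - 3)} :
    (graph7 k).Adj (Sum.inr (i, a)) (Sum.inl j) ↔ (j = i ∨ j = i + 1 ∨ j = i + 3) := Iff.rfl

theorem adj_rr {i j : ZMod 7} {a b : Fin (k - 3)} :
    (graph7 k).Adj (Sum.inr (i, a)) (Sum.inr (j, b)) ↔ (i = j ∧ a ≠ b) := Iff.rfl

section colour

variable {V : Type} {G : SimpleGraph V} {f : V → ℕ}

/-- `v` is the first vertex of an ascending path with all the colours from `f v` to `K`. -/
def TT (G : SimpleGraph V) (f : V → ℕ) (K : ℕ) (v : V) : Prop :=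
  ∃ q : ℕ → V, q (f v) = v ∧ (∀ i, f v ≤ i → i < K → G.Adj (q i) (q (i + 1))) ∧
    ∀ i, f v ≤ i → i ≤ K → f (q i) = i

theorem down (hF2 : ∀ v m, f v = m + 1 → ∃ u, G.Adj u v ∧ f u = m) : ∀ (m : ℕ) (u : V),
    f u = m → ∃ q : ℕ → V, q m = u ∧ (∀ i ≤ m, f (q i) = i) ∧
      ∀ i < m, G.Adj (q i) (q (i + 1)) := by
  intro m
  induction m with
  | zero =>
    intro u hu
    exact ⟨fun _ => u, rfl, fun i hi => by rw [hu]; omega, fun i hi => by omega⟩
  | succ m ih =>
    intro u hu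
    obtain ⟨w, hw, hwm⟩ := hF2 u m hu
    obtain ⟨q, h1, h2, h3⟩ := ih w hwm
    refine ⟨fun i => if i ≤ m then q i else u, by simp, ?_, ?_⟩
    · intro i hi
      dsimp only
      by_cases h : i ≤ m
      · rw [if_pos h]
        exact h2 i h
      · rw [if_neg h, hu]
        omega
    · intro i hi
      dsimp only
      by_cases h : i + 1 ≤ m
      · rw [if_pos (by omega), if_pos h]
        exact h3 i (by omega)
      · have h4 : i = m := by omega
        subst h4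
        rw [if_pos le_rfl, if_neg h, h1]
        exact hw

/-- the vertex below a vertex of the path is unique -/
theorem TT.unique (hle : ∀ v, f v ≤ K) (hF2 : ∀ v m, f v = m + 1 → ∃ u, G.Adj u v ∧ f u = m)
    (hF3 : ∀ p q : Fin (K + 1) → V, (∀ i, f (p i) = i) →
        (∀ i j : Fin (K + 1), (j : ℕ) = i + 1 → G.Adj (p i) (p j)) → (∀ i, f (q i) = i) →
        (∀ i j : Fin (K + 1), (j : ℕ) = i + 1 → G.Adj (q i) (q j)) → p = q) {v u u' : V} {m : ℕ}
    (hv : TT G f K v) (hm : f v = m + 1) (hu : G.Adj u v) (hu' : G.Adj u' v) (hum : f u = m)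
    (hum' : f u' = m) : u = u' := by
  obtain ⟨q, h1, h2, h3⟩ := hv
  have hK := hle v
  rw [hm] at h1 h2 h3 hK
  have key : ∀ w, G.Adj w v → f w = m → ∃ p : Fin (K + 1) → V, (∀ i, f (p i) = i) ∧
      (∀ i j : Fin (K + 1), (j : ℕ) = i + 1 → G.Adj (p i) (p j)) ∧
      p ⟨m, by omega⟩ = w := by
    intro w hw hwm
    obtain ⟨r, h4, h5, h6⟩ := down hF2 m w hwm
    refine ⟨fun i => if (i : ℕ) ≤ m then r i else q i, ?_, ?_, ?_⟩
    · intro i
      dsimp only
      by_cases h : (i : ℕ) ≤ m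
      · rw [if_pos h]
        exact h5 i h
      · rw [if_neg h]
        exact h3 i (by omega) (by omega)
    · intro i j hij
      dsimp only
      by_cases h : (j : ℕ) ≤ m
      · rw [if_pos h, if_pos (by omega), hij]
        exact h6 i (by omega)
      · rw [if_neg h]
        by_cases h' : (i : ℕ) ≤ m
        · have h7 : (i : ℕ) = m := by omega
          rw [if_pos h', h7, h4, hij, h7, h1]
          exact hw
        · rw [if_neg h', hij]
          exact h2 i (by omega) (by omega)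
    · dsimp only
      rw [if_pos le_rfl, h4]
  obtain ⟨p, p1, p2, p3⟩ := key u hu hum
  obtain ⟨p', p1', p2', p3'⟩ := key u' hu' hum'
  have h4 := congrFun (hF3 p p' p1 p2 p1' p2') ⟨m, by omega⟩
  rw [p3, p3'] at h4
  exact h4

theorem TT.step {v u : V} {m : ℕ} (hv : TT G f K v) (hm : f v = m + 1) (hu : G.Adj u v)
    (hum : f u = m) : TT G f K u := by
  obtain ⟨q, h1, h2, h3⟩ := hv
  rw [hm] at h1 h2 h3
  refine ⟨fun i => if i ≤ m then u else q i, ?_, ?_, ?_⟩
  · rw [hum]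
    simp
  · intro i hi hiK
    rw [hum] at hi
    dsimp only
    by_cases h : i ≤ m
    · have h4 : i = m := by omega
      subst h4
      rw [if_pos h, if_neg (by omega), h1]
      exact hu
    · rw [if_neg h, if_neg (by omega)]
      exact h2 i (by omega) hiK
  · intro i hi hiK
    rw [hum] at hi
    dsimp only
    by_cases h : i ≤ m
    · rw [if_pos h, hum]
      omega
    · rw [if_neg h]
      exact h3 i (by omega) hiK

theorem TT.top {v : V} (hv : f v = K) : TT G f K v := by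
  refine ⟨fun _ => v, rfl, fun i h1 h2 => by omega, fun i h1 h2 => ?_⟩
  dsimp only
  omega

theorem top_unique (hF2 : ∀ v m, f v = m + 1 → ∃ u, G.Adj u v ∧ f u = m)
    (hF3 : ∀ p q : Fin (K + 1) → V, (∀ i, f (p i) = i) →
        (∀ i j : Fin (K + 1), (j : ℕ) = i + 1 → G.Adj (p i) (p j)) → (∀ i, f (q i) = i) →
        (∀ i j : Fin (K + 1), (j : ℕ) = i + 1 → G.Adj (q i) (q j)) → p = q) {u v : V}
    (hu : f u = K) (hv : f v = K) : u = v := by
  obtain ⟨q, h1, h2, h3⟩ := down hF2 K u hu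
  obtain ⟨q', h1', h2', h3'⟩ := down hF2 K v hv
  have h4 := congrFun (hF3 (fun i => q i) (fun i => q' i) (fun i => h2 i (by omega))
    (fun i j hij => by
      rw [hij]
      exact h3 i (by omega)) (fun i => h2' i (by omega)) (fun i j hij => by
      rw [hij]
      exact h3' i (by omega))) ⟨K, by omega⟩
  dsimp only at h4
  rw [h1, h1'] at h4
  exact h4

end colour

theorem cfg_of (hk : k = K + 1) (hK : 3 ≤ K) {f : Vtx k → ℕ} (hle : ∀ v, f v ≤ K)
    (hF1 : ∀ u v, (graph7 k).Adj u v → f u ≠ f v)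
    (hF2 : ∀ v m, f v = m + 1 → ∃ u, (graph7 k).Adj u v ∧ f u = m)
    (hF3 : ∀ p q : Fin (K + 1) → Vtx k, (∀ i, f (p i) = i) →
        (∀ i j : Fin (K + 1), (j : ℕ) = i + 1 → (graph7 k).Adj (p i) (p j)) →
        (∀ i, f (q i) = i) →
        (∀ i j : Fin (K + 1), (j : ℕ) = i + 1 → (graph7 k).Adj (q i) (q j)) → p = q) :
    Cfg K (fun i => f (Sum.inl i)) (fun i m => ∃ a, f (Sum.inr (i, a)) = m)
      (fun i => TT (graph7 k) f K (Sum.inl i))
      (fun i m => ∃ a, f (Sum.inr (i, a)) = m ∧ TT (graph7 k) f K (Sum.inr (i, a))) := by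
  have hU : ∀ {v u u' : Vtx k} {m : ℕ}, TT (graph7 k) f K v → f v = m + 1 →
      (graph7 k).Adj u v → (graph7 k).Adj u' v → f u = m → f u' = m → u = u' :=
    fun h1 h2 h3 h4 h5 h6 => h1.unique hle hF2 hF3 h2 h3 h4 h5 h6
  have n1 : ∀ i : ZMod 7, i + 1 ≠ i - 1 := by decide
  have n2 : ∀ i : ZMod 7, i ≠ i - 1 := by decide
  have n3 : ∀ i : ZMod 7, i ≠ i - 3 := by decide
  have n4 : ∀ i : ZMod 7, i - 1 ≠ i - 3 := by decide
  have g1 : ∀ i : ZMod 7, (graph7 k).Adj (Sum.inl (i + 1)) (Sum.inl i) := fun i => Or.inr rfl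
  have g2 : ∀ i : ZMod 7, (graph7 k).Adj (Sum.inl (i - 1)) (Sum.inl i) :=
    fun i => Or.inl (by ring)
  have g3 : ∀ (i : ZMod 7) a, (graph7 k).Adj (Sum.inr (i, a)) (Sum.inl i) :=
    fun i a => Or.inl rfl
  have g4 : ∀ (i : ZMod 7) a, (graph7 k).Adj (Sum.inr (i - 1, a)) (Sum.inl i) :=
    fun i a => Or.inr (Or.inl (by ring))
  have g5 : ∀ (i : ZMod 7) a, (graph7 k).Adj (Sum.inr (i - 3, a)) (Sum.inl i) :=
    fun i a => Or.inr (Or.inr (by ring))
  constructor
  · exact fun i => hle _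
  · exact fun i => hF1 _ _ (Or.inl rfl)
  · rintro i ⟨a, ha⟩
    exact hF1 _ _ (g3 i a) ha
  · rintro i ⟨a, ha⟩
    exact hF1 (Sum.inr (i, a)) (Sum.inl (i + 1)) (Or.inr (Or.inl rfl)) ha
  · rintro i ⟨a, ha⟩
    exact hF1 (Sum.inr (i, a)) (Sum.inl (i + 3)) (Or.inr (Or.inr rfl)) ha
  · intro i a b d e ha hb hd he h1 h2 h3 h4 h5 h6
    by_contra hcon
    push Not at hcon
    obtain ⟨c1, c2, c3, c4⟩ := hcon
    have hinj : Function.Injective (fun x : Fin (k - 3) => f (Sum.inr (i, x))) := by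
      intro x y hxy
      by_contra hne
      exact hF1 (Sum.inr (i, x)) (Sum.inr (i, y)) ⟨rfl, hne⟩ hxy
    have hsub : Finset.univ.image (fun x : Fin (k - 3) => f (Sum.inr (i, x))) ∪
        {a, b, d, e} ⊆ Finset.range (K + 1) := by
      intro x hx
      rw [Finset.mem_union, Finset.mem_image] at hx
      rw [Finset.mem_range]
      rcases hx with ⟨y, -, rfl⟩ | hx
      · have := hle (Sum.inr (i, y))
        omega
      · simp only [Finset.mem_insert, Finset.mem_singleton] at hx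
        omega
    have hdisj : Disjoint (Finset.univ.image (fun x : Fin (k - 3) => f (Sum.inr (i, x))))
        ({a, b, d, e} : Finset ℕ) := by
      rw [Finset.disjoint_left]
      intro x hx hx'
      rw [Finset.mem_image] at hx
      obtain ⟨y, -, rfl⟩ := hx
      simp only [Finset.mem_insert, Finset.mem_singleton] at hx'
      rcases hx' with h | h | h | h
      · exact c1 y h
      · exact c2 y h
      · exact c3 y h
      · exact c4 y h
    have hcard := Finset.card_le_card hsub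
    rw [Finset.card_union_of_disjoint hdisj, Finset.card_image_of_injective _ hinj,
      Finset.card_univ, Fintype.card_fin, Finset.card_range] at hcard
    have h7 : ({a, b, d, e} : Finset ℕ).card = 4 := by
      rw [Finset.card_insert_of_notMem, Finset.card_insert_of_notMem,
        Finset.card_insert_of_notMem, Finset.card_singleton]
      · simpa using h6
      · simp only [Finset.mem_insert, Finset.mem_singleton]
        omega
      · simp only [Finset.mem_insert, Finset.mem_singleton]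
        omega
    omega
  · intro i j h1 h2
    exact Sum.inl_injective (top_unique hF2 hF3 h1 h2)
  · rintro i j h1 ⟨a, h2⟩
    exact Sum.inl_ne_inr (top_unique hF2 hF3 h1 h2)
  · rintro i j ⟨a, h1⟩ ⟨b, h2⟩
    exact congrArg Prod.fst (Sum.inr_injective (top_unique hF2 hF3 h1 h2))
  · exact fun i h => TT.top h
  · rintro i ⟨a, h⟩
    exact ⟨a, h, TT.top h⟩
  · intro i m h1 h2 h3 h4
    exact n1 i (Sum.inl_injective (hU h1 h2 (g1 i) (g2 i) h3 h4))
  · rintro i m h1 h2 h3 ⟨a, h4⟩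
    exact Sum.inl_ne_inr (hU h1 h2 (g1 i) (g4 i a) h3 h4)
  · rintro i m h1 h2 h3 ⟨a, h4⟩
    exact Sum.inl_ne_inr (hU h1 h2 (g2 i) (g3 i a) h3 h4)
  · rintro i m h1 h2 ⟨a, h3⟩ ⟨b, h4⟩
    exact n2 i (congrArg Prod.fst (Sum.inr_injective (hU h1 h2 (g3 i a) (g4 i b) h3 h4)))
  · rintro i m h1 h2 ⟨a, h3⟩ ⟨b, h4⟩
    exact n3 i (congrArg Prod.fst (Sum.inr_injective (hU h1 h2 (g3 i a) (g5 i b) h3 h4)))
  · rintro i m h1 h2 ⟨a, h3⟩ ⟨b, h4⟩
    exact n4 i (congrArg Prod.fst (Sum.inr_injective (hU h1 h2 (g4 i a) (g5 i b) h3 h4)))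
  · intro i m h1 h2 h3
    exact h1.step h2 (g1 i) h3
  · intro i m h1 h2 h3
    exact h1.step h2 (g2 i) h3
  · rintro i m h1 h2 ⟨a, h3⟩
    exact ⟨a, h3, h1.step h2 (g3 i a) h3⟩
  · rintro i m h1 h2 ⟨a, h3⟩
    exact ⟨a, h3, h1.step h2 (g4 i a) h3⟩
  · rintro i m h1 h2 ⟨a, h3⟩
    exact ⟨a, h3, h1.step h2 (g5 i a) h3⟩
  · rintro i m ⟨a, h1, h2⟩ ⟨b, h3⟩
    refine ⟨b, h3, h2.step h1 ?_ h3⟩
    refine ⟨rfl, ?_⟩
    rintro rfl
    omega
  · rintro i m ⟨a, h1, h2⟩ hn
    obtain ⟨u, hu, hum⟩ := hF2 _ _ h1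
    rcases u with j | ⟨j, b⟩
    · rcases adj_lr.1 hu with rfl | rfl | rfl
      · exact Or.inl ⟨hum, h2.step h1 hu hum⟩
      · exact Or.inr (Or.inl ⟨hum, h2.step h1 hu hum⟩)
      · exact Or.inr (Or.inr ⟨hum, h2.step h1 hu hum⟩)
    · obtain ⟨rfl, -⟩ := adj_rr.1 hu
      exact absurd ⟨b, hum⟩ hn

theorem no_minimal_orientation (k : ℕ) (hk : 4 ≤ k) {O : Vtx k → Vtx k → Prop}
    (hO : IsOrientation (graph7 k) O) : ¬ ∃! p : Fin k → Vtx k, IsDiPath O k p := by
  obtain ⟨K, rfl⟩ : ∃ K, k = K + 1 := ⟨k - 1, by omega⟩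
  rintro ⟨p, hp, huniq⟩
  obtain ⟨f, h1, h2, h3, h4⟩ := roy hO K (fun q r hq hr => (huniq q hq).trans (huniq r hr).symm)
  exact Cfg.false (by omega) (cfg_of rfl (by omega) h1 h2 h3 h4)

end Pool.Agent.Q157.YG
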